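import Mathlib

set_option autoImplicit false

namespace Pool.Agent.Helper70.Sofic

open Equiv Finset

/-- The definition of soficity used in the frozen statement of MP_67b2ac_al. -/
def IsSofic (G : Type) [Group G] : Prop :=
  ∀ (F : Finset G) (ε : ℝ), 0 < ε →
      ∃ n : ℕ, ∃ φ : G → Equiv.Perm (Fin n),
        (∀ g ∈ F, ∀ h ∈ F,
          (((Finset.univ.filter (fun i => φ (g * h) i ≠ (φ g * φ h) i)).card : ℝ) < ε * n)) ∧
        (∀ g ∈ F, g ≠ 1 →
          (1 - ε) * n ≤ ((Finset.univ.filter (fun i => φ g i ≠ i)).card : ℝ))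

/-- Same with an arbitrary finite type. -/
theorem isSofic_of_fintype {G : Type} [Group G]
    (h : ∀ (F : Finset G) (ε : ℝ), 0 < ε → ∃ (X : Type) (_ : Fintype X) (_ : DecidableEq X)
        (φ : G → Perm X),
        (∀ g ∈ F, ∀ h ∈ F,
          (((Finset.univ.filter (fun i => φ (g * h) i ≠ (φ g * φ h) i)).card : ℝ) < ε * Fintype.card X)) ∧
        (∀ g ∈ F, g ≠ 1 →
          (1 - ε) * Fintype.card X ≤ ((Finset.univ.filter (fun i => φ g i ≠ i)).card : ℝ))) :
    IsSofic G := by
  intro F ε hε
  obtain ⟨X, _, _, φ, h1, h2⟩ := h F ε hε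
  let e : X ≃ Fin (Fintype.card X) := Fintype.equivFin X
  refine ⟨Fintype.card X, fun g => e.permCongr (φ g), ?_, ?_⟩
  · intro g hg k hk
    have h3 := h1 g hg k hk
    have h4 : (Finset.univ.filter (fun i => (e.permCongr (φ (g * k))) i ≠
        ((e.permCongr (φ g)) * (e.permCongr (φ k))) i)).card =
        (Finset.univ.filter (fun i => φ (g * k) i ≠ (φ g * φ k) i)).card := by
      apply Finset.card_bij (fun i _ => e.symm i)
      · intro i hi
        simp only [mem_filter, mem_univ, true_and] at hi ⊢
        intro h5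
        apply hi
        simp only [Equiv.permCongr_apply, Perm.mul_apply, Equiv.symm_apply_apply] at h5 ⊢
        rw [h5]
      · intro i _ j _ hij
        exact e.symm.injective hij
      · intro x hx
        refine ⟨e x, ?_, by simp⟩
        simp only [mem_filter, mem_univ, true_and] at hx ⊢
        intro h5
        apply hx
        simp only [Equiv.permCongr_apply, Perm.mul_apply, Equiv.symm_apply_apply] at h5 ⊢
        exact e.injective h5
    rw [h4]; exact h3
  · intro g hg hg1
    have h3 := h2 g hg hg1
    have h4 : (Finset.univ.filter (fun i => (e.permCongr (φ g)) i ≠ i)).card =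
        (Finset.univ.filter (fun i => φ g i ≠ i)).card := by
      apply Finset.card_bij (fun i _ => e.symm i)
      · intro i hi
        simp only [mem_filter, mem_univ, true_and] at hi ⊢
        intro h5
        apply hi
        simp only [Equiv.permCongr_apply] at h5 ⊢
        rw [h5]; simp
      · intro i _ j _ hij
        exact e.symm.injective hij
      · intro x hx
        refine ⟨e x, ?_, by simp⟩
        simp only [mem_filter, mem_univ, true_and] at hx ⊢
        intro h5
        apply hx
        simp only [Equiv.permCongr_apply, Equiv.symm_apply_apply] at h5 ⊢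
        exact e.injective h5
    rw [h4]; exact h3

/-- Fully residually sofic implies sofic. -/
theorem isSofic_of_hom {G : Type} [Group G]
    (h : ∀ F : Finset G, ∃ (H : Type) (_ : Group H) (f : G →* H), IsSofic H ∧
      ∀ g ∈ F, g ≠ 1 → f g ≠ 1) : IsSofic G := by
  classical
  intro F ε hε
  obtain ⟨H, _, f, hH, hf⟩ := h F
  obtain ⟨n, φ, h1, h2⟩ := hH (F.image f) ε hε
  refine ⟨n, fun g => φ (f g), ?_, ?_⟩
  · intro g hg k hk
    have h3 := h1 _ (Finset.mem_image_of_mem f hg) _ (Finset.mem_image_of_mem f hk)
    rw [← map_mul] at h3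
    exact h3
  · intro g hg hg1
    exact h2 _ (Finset.mem_image_of_mem f hg) (hf g hg hg1)

theorem isSofic_of_injective {G H : Type} [Group G] [Group H] (f : G →* H)
    (hf : Function.Injective f) (hH : IsSofic H) : IsSofic G := by
  apply isSofic_of_hom
  intro F
  refine ⟨H, _, f, hH, ?_⟩
  intro g _ hg1 h
  exact hg1 (hf (by rw [h, map_one]))

/-- Finite index overgroups of sofic groups are sofic. -/
theorem isSofic_of_finiteIndex {G : Type} [Group G] (H : Subgroup G) [hfi : H.FiniteIndex]
    (hH : IsSofic H) : IsSofic G := by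
  classical
  apply isSofic_of_fintype
  intro F ε hε
  have : Finite (G ⧸ H) := Subgroup.finite_quotient_of_finiteIndex
  haveI : Fintype (G ⧸ H) := Fintype.ofFinite _
  let s : G ⧸ H → G := fun t => t.out
  have hs : ∀ t, ((s t : G) : G ⧸ H) = t := fun t => t.out_eq'
  have hmem : ∀ (g : G) (t : G ⧸ H), (s (g • t))⁻¹ * (g * s t) ∈ H := by
    intro g t
    rw [← QuotientGroup.eq, hs, ← smul_eq_mul g (s t), ← MulAction.Quotient.smul_coe, hs]
  let c : G → (G ⧸ H) → H := fun g t => ⟨_, hmem g t⟩
  have hc : ∀ g k t, c (g * k) t = c g (k • t) * c k t := by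
    intro g k t
    apply Subtype.ext
    simp only [c, Subgroup.coe_mul, mul_smul]
    group
  let FH : Finset H := (F ×ˢ (Finset.univ : Finset (G ⧸ H))).image (fun p => c p.1 p.2)
  obtain ⟨n, ψ, h1, h2⟩ := hH FH ε hε
  let φ : G → Perm ((G ⧸ H) × Fin n) := fun g =>
    Equiv.prodShear (MulAction.toPerm g) (fun t => ψ (c g t))
  have hφ : ∀ g t i, φ g (t, i) = (g • t, ψ (c g t) i) := fun g t i => rfl
  have hcF : ∀ g ∈ F, ∀ t, c g t ∈ FH := by
    intro g hg t
    exact Finset.mem_image.2 ⟨(g, t), by simp [hg], rfl⟩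
  have : Nonempty (G ⧸ H) := ⟨((1 : G) : G ⧸ H)⟩
  have hcardT : (0 : ℝ) < Fintype.card (G ⧸ H) := by
    exact_mod_cast Fintype.card_pos
  refine ⟨(G ⧸ H) × Fin n, inferInstance, inferInstance, φ, ?_, ?_⟩
  · intro g hg k hk
    have h3 : (Finset.univ.filter (fun x => φ (g * k) x ≠ (φ g * φ k) x)).card ≤
        ∑ t : G ⧸ H, (Finset.univ.filter (fun i => ψ (c g (k • t) * c k t) i ≠
          (ψ (c g (k • t)) * ψ (c k t)) i)).card := by
      have h4 : (Finset.univ.filter (fun x : (G ⧸ H) × Fin n => φ (g * k) x ≠ (φ g * φ k) x)) ⊆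
          (Finset.univ : Finset (G ⧸ H)).biUnion (fun t =>
          (Finset.univ.filter (fun i => ψ (c g (k • t) * c k t) i ≠
          (ψ (c g (k • t)) * ψ (c k t)) i)).image (fun i => (t, i))) := by
        rintro ⟨t, i⟩ hx
        simp only [mem_filter, mem_univ, true_and] at hx
        simp only [mem_biUnion, mem_image, mem_filter, mem_univ, true_and]
        refine ⟨t, i, ?_, rfl⟩
        intro h5
        apply hx
        rw [Perm.mul_apply, hφ, hφ, hφ, hc, mul_smul, h5, Perm.mul_apply]
      refine (Finset.card_le_card h4).trans (Finset.card_biUnion_le.trans ?_)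
      apply Finset.sum_le_sum
      intro t _
      exact Finset.card_image_le
    have h4 : ((Finset.univ.filter (fun x => φ (g * k) x ≠ (φ g * φ k) x)).card : ℝ) ≤
        ∑ t : G ⧸ H, ((Finset.univ.filter (fun i => ψ (c g (k • t) * c k t) i ≠
          (ψ (c g (k • t)) * ψ (c k t)) i)).card : ℝ) := by
      exact_mod_cast h3
    refine lt_of_le_of_lt h4 ?_
    have h5 : ∑ t : G ⧸ H, ((Finset.univ.filter (fun i => ψ (c g (k • t) * c k t) i ≠
          (ψ (c g (k • t)) * ψ (c k t)) i)).card : ℝ) < ∑ t : G ⧸ H, ε * n := by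
      apply Finset.sum_lt_sum_of_nonempty Finset.univ_nonempty
      intro t _
      exact h1 _ (hcF g hg _) _ (hcF k hk _)
    refine lt_of_lt_of_eq h5 ?_
    simp [Fintype.card_prod]
    ring
  · intro g hg hg1
    have h3 : ∑ t : G ⧸ H, (1 - ε) * (n : ℝ) ≤
        ∑ t : G ⧸ H, ((Finset.univ.filter (fun i : Fin n => φ g (t, i) ≠ (t, i))).card : ℝ) := by
      apply Finset.sum_le_sum
      intro t _
      by_cases ht : g • t = t
      · have h4 : c g t ≠ 1 := by
          intro h5
          apply hg1
          have h6 : (s (g • t))⁻¹ * (g * s t) = 1 := congrArg Subtype.val h5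
          rw [ht] at h6
          have h7 : g * s t = s t := by
            rw [inv_mul_eq_one] at h6
            exact h6.symm
          simpa using h7
        refine (h2 _ (hcF g hg t) h4).trans ?_
        have : (Finset.univ.filter (fun i : Fin n => ψ (c g t) i ≠ i)).card ≤
            (Finset.univ.filter (fun i : Fin n => φ g (t, i) ≠ (t, i))).card := by
          apply Finset.card_le_card
          intro i hi
          simp only [mem_filter, mem_univ, true_and] at hi ⊢
          rw [hφ]
          intro h5
          exact hi (Prod.ext_iff.1 h5).2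
        exact_mod_cast this
      · have h4 : (Finset.univ.filter (fun i : Fin n => φ g (t, i) ≠ (t, i))) = Finset.univ := by
          apply Finset.filter_true_of_mem
          intro i _ h5
          rw [hφ] at h5
          exact ht (Prod.ext_iff.1 h5).1
        rw [h4, Finset.card_univ, Fintype.card_fin]
        nlinarith [Nat.cast_nonneg (α := ℝ) n]
    have h4 : ∑ t : G ⧸ H, ((Finset.univ.filter (fun i : Fin n => φ g (t, i) ≠ (t, i))).card : ℝ) ≤
        ((Finset.univ.filter (fun x => φ g x ≠ x)).card : ℝ) := by
      have h5 : ∑ t : G ⧸ H, (Finset.univ.filter (fun i : Fin n => φ g (t, i) ≠ (t, i))).card ≤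
          (Finset.univ.filter (fun x => φ g x ≠ x)).card := by
        have h6 : ((Finset.univ : Finset (G ⧸ H)).sigma (fun t =>
            (Finset.univ.filter (fun i : Fin n => φ g (t, i) ≠ (t, i))))).card ≤
            (Finset.univ.filter (fun x => φ g x ≠ x)).card := by
          apply Finset.card_le_card_of_injOn (fun p => (p.1, p.2))
          · rintro ⟨t, i⟩ hp
            simpa using hp
          · rintro ⟨t, i⟩ _ ⟨t', i'⟩ _ h7
            simp only [Prod.mk.injEq] at h7
            obtain ⟨h8, h9⟩ := h7
            subst h8; subst h9; rfl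
        rwa [Finset.card_sigma] at h6
      exact_mod_cast h5
    refine le_trans (le_of_eq ?_) (h3.trans h4)
    simp [Fintype.card_prod]
    ring

end Pool.Agent.Helper70.Sofic
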