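import Mathlib
import Pool.Agent.Helper70.Sofic.Basic

set_option autoImplicit false

namespace Pool.Agent.Helper70.Sofic

/-- Q1 of MP_67b2ac_al. -/
def TwoExt : Prop :=
  ∀ (G : Type) [Group G] (N : Subgroup G) [N.Normal], Nat.card N = 2 →
    IsSofic (G ⧸ N) → IsSofic G

/-- Central extensions by finite 2-groups. -/
theorem central_ext (hQ : TwoExt) : ∀ (m : ℕ) (G : Type) [Group G] (A : Subgroup G) [A.Normal],
    A ≤ Subgroup.center G → Finite A → IsPGroup 2 A → Nat.card A ≤ m → IsSofic (G ⧸ A) →
    IsSofic G := by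
  intro m
  induction m with
  | zero =>
    intro G _ A _ hA hfin hp hm hS
    have : 0 < Nat.card A := Nat.card_pos
    omega
  | succ m ih =>
    intro G _ A _ hA hfin hp hm hS
    by_cases hbot : A = ⊥
    · refine isSofic_of_injective (QuotientGroup.mk' A) ?_ hS
      rw [← MonoidHom.ker_eq_bot_iff, QuotientGroup.ker_mk', hbot]
    · have hnt : Nontrivial A := (Subgroup.nontrivial_iff_ne_bot A).2 hbot
      have hcard : 2 ∣ Nat.card A := by
        obtain ⟨n, hn⟩ := IsPGroup.iff_card.1 hp
        rw [hn]
        apply dvd_pow_self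
        rintro rfl
        rw [pow_zero, Nat.card_eq_one_iff_unique] at hn
        exact not_subsingleton A hn.1
      haveI : Fact (Nat.Prime 2) := ⟨Nat.prime_two⟩
      obtain ⟨z, hz⟩ := exists_prime_orderOf_dvd_card' 2 hcard
      have hzA : (z : G) ∈ A := z.2
      have hzo : orderOf (z : G) = 2 := by rw [Subgroup.orderOf_coe, hz]
      let Z : Subgroup G := Subgroup.zpowers (z : G)
      have hZA : Z ≤ A := by
        rw [Subgroup.zpowers_le]; exact hzA
      haveI hZn : Z.Normal := by
        refine ⟨fun n hn g => ?_⟩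
        have h1 := (Subgroup.mem_center_iff.1 (hA (hZA hn))) g
        rw [h1]; simpa using hn
      have hZc : Nat.card Z = 2 := by
        rw [Nat.card_zpowers, hzo]
      apply hQ G Z hZc
      let B : Subgroup (G ⧸ Z) := A.map (QuotientGroup.mk' Z)
      have hBn : B.Normal := Subgroup.Normal.map inferInstance _ (QuotientGroup.mk'_surjective Z)
      have hBc : B ≤ Subgroup.center (G ⧸ Z) := by
        rintro _ ⟨a, ha, rfl⟩
        rw [Subgroup.mem_center_iff]
        intro g
        obtain ⟨g, rfl⟩ := QuotientGroup.mk'_surjective Z g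
        rw [← map_mul, ← map_mul, Subgroup.mem_center_iff.1 (hA ha) g]
      let f : A → B := fun a => ⟨QuotientGroup.mk' Z a, ⟨a, a.2, rfl⟩⟩
      have hf : Function.Surjective f := by
        rintro ⟨_, ⟨a, ha, rfl⟩⟩
        exact ⟨⟨a, ha⟩, rfl⟩
      have hBf : Finite B := Finite.of_surjective f hf
      have hBp : IsPGroup 2 B := hp.map _
      have hlt : Nat.card B ≤ m := by
        by_contra hcon
        have h1 : Nat.card A ≤ Nat.card B := by omega
        have h2 := hf.bijective_of_nat_card_le h1
        have h3 : f z = f 1 := by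
          apply Subtype.ext
          simp only [f]
          rw [OneMemClass.coe_one, map_one]
          rw [QuotientGroup.mk'_apply, QuotientGroup.eq_one_iff]
          exact Subgroup.mem_zpowers _
        have h4 := h2.1 h3
        rw [h4, orderOf_one] at hz
        omega
      refine ih (G ⧸ Z) B hBc hBf hBp hlt ?_
      exact isSofic_of_injective (QuotientGroup.quotientQuotientEquivQuotient Z A hZA).toMonoidHom
        (QuotientGroup.quotientQuotientEquivQuotient Z A hZA).injective hS

/-- Extensions by finite groups whose centre is a 2-group. -/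
theorem finite_ext (hQ : TwoExt) (G : Type) [Group G] (K : Subgroup G) [K.Normal] [Finite K]
    (hK : IsPGroup 2 (Subgroup.center K)) (hS : IsSofic (G ⧸ K)) : IsSofic G := by
  have hfin : Finite (MulAut K) :=
    Finite.of_injective (fun e : MulAut K => e.toEquiv) (fun a b h => MulEquiv.toEquiv_injective h)
  let C : Subgroup G := (MulAut.conjNormal : G →* MulAut K).ker
  have hCfi : C.FiniteIndex := Subgroup.finiteIndex_ker _
  have hcomm : ∀ c ∈ C, ∀ k ∈ K, c * k = k * c := by
    intro c hc k hk
    have h1 : (MulAut.conjNormal c : MulAut K) = 1 := hc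
    have h2 := MulAut.conjNormal_apply (H := K) c ⟨k, hk⟩
    rw [h1] at h2
    simp only [MulAut.one_apply] at h2
    rw [eq_mul_inv_iff_mul_eq] at h2
    exact h2.symm
  apply isSofic_of_finiteIndex C
  let A : Subgroup C := K.subgroupOf C
  have hAn : A.Normal := inferInstance
  let f : A → K := fun a => ⟨(a : C), a.2⟩
  have hf : Function.Injective f := by
    intro a b h
    have h1 := congrArg (fun y : K => (y : G)) h
    apply Subtype.ext
    apply Subtype.ext
    exact h1
  have hAf : Finite A := Finite.of_injective f hf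
  have hAc : A ≤ Subgroup.center C := by
    intro a ha
    rw [Subgroup.mem_center_iff]
    intro c
    apply Subtype.ext
    exact hcomm c c.2 a ha
  have hAp : IsPGroup 2 A := by
    intro a
    have h1 : f a ∈ Subgroup.center K := by
      rw [Subgroup.mem_center_iff]
      intro k
      apply Subtype.ext
      exact (hcomm (a : C) (a : C).2 k k.2).symm
    obtain ⟨j, hj⟩ := hK ⟨f a, h1⟩
    refine ⟨j, ?_⟩
    apply Subtype.ext
    apply Subtype.ext
    have h2 := congrArg (fun x : Subgroup.center K => ((x : K) : G)) hj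
    simpa [f] using h2
  refine central_ext hQ (Nat.card A) C A hAc hAf hAp le_rfl ?_
  refine isSofic_of_injective (QuotientGroup.map A K C.subtype (by
    intro a ha; exact ha)) ?_ hS
  rw [injective_iff_map_eq_one]
  intro a ha
  obtain ⟨a, rfl⟩ := QuotientGroup.mk'_surjective A a
  rw [QuotientGroup.mk'_apply, QuotientGroup.map_mk, QuotientGroup.eq_one_iff] at ha
  rw [QuotientGroup.mk'_apply, QuotientGroup.eq_one_iff]
  exact ha

theorem finite_hom {N P : Type} [Group N] [Group P] [Group.FG N] [Finite P] : Finite (N →* P) := by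
  obtain ⟨S, hS⟩ := Group.fg_iff.1 (inferInstance : Group.FG N)
  have hfin := hS.2.to_subtype
  refine Finite.of_injective (fun (f : N →* P) (s : S) => f s) ?_
  intro f g h
  apply MonoidHom.eq_of_eqOn_dense hS.1
  intro s hs
  exact congrFun h ⟨s, hs⟩

/-- `N` is residually (finite with centre a 2-group). -/
def ResTwoCentre (N : Type) [Group N] : Prop :=
  ∀ x : N, x ≠ 1 → ∃ (P : Type) (_ : Group P) (_ : Finite P) (f : N →* P),
    Function.Surjective f ∧ IsPGroup 2 (Subgroup.center P) ∧ f x ≠ 1

theorem main_ext (hQ : TwoExt) (G : Type) [Group G] (N : Subgroup G) [N.Normal] [Group.FG N]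
    (hN : ResTwoCentre N) (hS : IsSofic (G ⧸ N)) : IsSofic G := by
  classical
  apply isSofic_of_hom
  intro F
  -- choose the finite groups
  choose P hPg hPf f hf hP2 hfx using hN
  let I : Type := {x : N // x ≠ 1 ∧ (x : G) ∈ F}
  have hI : Finite I := by
    refine Finite.of_injective (fun i : I => (⟨(i.1 : G), i.2.2⟩ : F)) ?_
    intro i j h
    have h1 := congrArg (fun y : F => (y : G)) h
    apply Subtype.ext
    apply Subtype.ext
    exact h1
  let J : Type := Σ i : I, {h : N →* P i.1 i.2.1 // Function.Surjective h}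
  have hJ : Finite J := by
    have : ∀ i : I, Finite {h : N →* P i.1 i.2.1 // Function.Surjective h} := by
      intro i
      have : Finite (N →* P i.1 i.2.1) := finite_hom
      infer_instance
    infer_instance
  let M : Subgroup N := ⨅ j : J, (j.2.1).ker
  have hMfi : M.FiniteIndex := by
    apply Subgroup.finiteIndex_iInf
    intro j
    exact Subgroup.finiteIndex_ker _
  have hMmem : ∀ n : N, n ∈ M ↔ ∀ j : J, j.2.1 n = 1 := by
    intro n
    simp [M, Subgroup.mem_iInf, MonoidHom.mem_ker]
  have hMch : M.Characteristic := by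
    rw [Subgroup.characteristic_iff_le_comap]
    intro e n hn
    rw [Subgroup.mem_comap, hMmem]
    intro j
    have := (hMmem n).1 hn ⟨j.1, ⟨j.2.1.comp e.toMonoidHom, j.2.2.comp e.surjective⟩⟩
    exact this
  let M' : Subgroup G := M.map N.subtype
  have hM'n : M'.Normal := inferInstance
  have hM'N : M' ≤ N := by
    rintro _ ⟨n, _, rfl⟩
    exact n.2
  let K : Subgroup (G ⧸ M') := N.map (QuotientGroup.mk' M')
  have hKn : K.Normal := Subgroup.Normal.map inferInstance _ (QuotientGroup.mk'_surjective M')
  let π : N →* K := ((QuotientGroup.mk' M').comp N.subtype).codRestrict K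
    (fun n => ⟨n, n.2, rfl⟩)
  have hπ : Function.Surjective π := by
    rintro ⟨_, ⟨n, hn, rfl⟩⟩
    exact ⟨⟨n, hn⟩, rfl⟩
  have hπker : ∀ n : N, π n = 1 ↔ n ∈ M := by
    intro n
    have h1 : π n = 1 ↔ QuotientGroup.mk' M' (n : G) = 1 := by
      rw [Subtype.ext_iff]; rfl
    rw [h1, QuotientGroup.mk'_apply, QuotientGroup.eq_one_iff]
    constructor
    · rintro ⟨m, hm, hmn⟩
      have : m = n := Subtype.ext hmn
      rwa [← this]
    · intro hn
      exact ⟨n, hn, rfl⟩
  have hKf : Finite K := by
    have h1 : Finite (N ⧸ M) := Subgroup.finite_quotient_of_finiteIndex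
    have hle : M ≤ π.ker := fun n hn => (hπker n).2 hn
    refine Finite.of_surjective (QuotientGroup.lift M π hle) ?_
    intro k
    obtain ⟨n, rfl⟩ := hπ k
    exact ⟨(n : N ⧸ M), rfl⟩
  have hexp : ∀ i : I, ∃ e : ℕ, ∀ c : P i.1 i.2.1, c ∈ Subgroup.center (P i.1 i.2.1) →
      c ^ (2 ^ e) = 1 := by
    intro i
    have : Finite (Subgroup.center (P i.1 i.2.1)) := inferInstance
    obtain ⟨e, he⟩ := IsPGroup.iff_card.1 (hP2 i.1 i.2.1)
    refine ⟨e, fun c hc => ?_⟩
    have h1 : (⟨c, hc⟩ : Subgroup.center (P i.1 i.2.1)) ^ (Nat.card (Subgroup.center (P i.1 i.2.1))) = 1 :=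
      pow_card_eq_one'
    rw [he] at h1
    have h2 := congrArg Subtype.val h1
    simpa using h2
  choose e he using hexp
  haveI : Fintype I := Fintype.ofFinite I
  have hK2 : IsPGroup 2 (Subgroup.center K) := by
    rintro ⟨k, hk⟩
    obtain ⟨n, rfl⟩ := hπ k
    refine ⟨∑ i, e i, ?_⟩
    apply Subtype.ext
    have h1 : n ^ (2 ^ (∑ i, e i)) ∈ M := by
      rw [hMmem]
      intro j
      have hc : j.2.1 n ∈ Subgroup.center (P j.1.1 j.1.2.1) := by
        rw [Subgroup.mem_center_iff]
        intro g
        obtain ⟨m, rfl⟩ := j.2.2 g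
        rw [← map_mul, ← map_mul]
        have h2 : π m * π n = π n * π m := Subgroup.mem_center_iff.1 hk (π m)
        have h3 : π ((n * m)⁻¹ * (m * n)) = 1 := by
          rw [map_mul, map_inv, map_mul, map_mul, h2]; group
        have h4 := (hMmem _).1 ((hπker _).1 h3) j
        rw [map_mul, map_inv, inv_mul_eq_one] at h4
        exact h4.symm
      have h5 := he j.1 _ hc
      rw [map_pow]
      have h6 : e j.1 ≤ ∑ i, e i := Finset.single_le_sum (f := e) (fun i _ => Nat.zero_le _)
        (Finset.mem_univ j.1)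
      obtain ⟨r, hr⟩ := Nat.exists_eq_add_of_le h6
      rw [hr, pow_add, pow_mul, h5, one_pow]
    have h2 := (hπker _).2 h1
    rw [map_pow] at h2
    simpa using h2
  have hSK : IsSofic ((G ⧸ M') ⧸ K) :=
    isSofic_of_injective (QuotientGroup.quotientQuotientEquivQuotient M' N hM'N).toMonoidHom
      (QuotientGroup.quotientQuotientEquivQuotient M' N hM'N).injective hS
  refine ⟨G ⧸ M', inferInstance, QuotientGroup.mk' M', finite_ext hQ (G ⧸ M') K hK2 hSK, ?_⟩
  intro g hg hg1 h
  rw [QuotientGroup.mk'_apply, QuotientGroup.eq_one_iff] at h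
  obtain ⟨n, hn, rfl⟩ := h
  have hn1 : n ≠ 1 := by
    rintro rfl; exact hg1 rfl
  let i : I := ⟨n, hn1, hg⟩
  exact hfx n hn1 ((hMmem n).1 hn ⟨i, ⟨f n hn1, hf n hn1⟩⟩)

end Pool.Agent.Helper70.Sofic
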