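import Mathlib
import Pool.Agent.Helper70.Sofic.Main

set_option autoImplicit false

namespace Pool.Agent.Helper70.Sofic

/-- The kernel `N` is separated by subgroups that are normal in `G` and have finite quotient
with centre a 2-group. -/
def InvRes {G : Type} [Group G] (N : Subgroup G) : Prop :=
  ∀ x ∈ N, x ≠ 1 → ∃ (M : Subgroup G) (_ : M.Normal), M ≤ N ∧ x ∉ M ∧
    Finite (N ⧸ M.subgroupOf N) ∧ IsPGroup 2 (Subgroup.center (N ⧸ M.subgroupOf N))

theorem inv_ext (hQ : TwoExt) (G : Type) [Group G] (N : Subgroup G) [N.Normal]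
    (hN : InvRes N) (hS : IsSofic (G ⧸ N)) : IsSofic G := by
  classical
  apply isSofic_of_hom
  intro F
  choose P hPn hPN hPx hPf hP2 using hN
  let I : Type := {x : G // x ∈ N ∧ x ≠ 1 ∧ x ∈ F}
  have hI : Finite I := by
    refine Finite.of_injective (fun i : I => (⟨i.1, i.2.2.2⟩ : F)) ?_
    intro i j h
    have h1 := congrArg (fun y : F => (y : G)) h
    exact Subtype.ext h1
  let Q : I → Subgroup G := fun i => P i.1 i.2.1 i.2.2.1
  have hQn : ∀ i, (Q i).Normal := fun i => hPn i.1 i.2.1 i.2.2.1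
  have hQf : ∀ i, Finite (N ⧸ (Q i).subgroupOf N) := fun i => hPf i.1 i.2.1 i.2.2.1
  have hQ2 : ∀ i, IsPGroup 2 (Subgroup.center (N ⧸ (Q i).subgroupOf N)) :=
    fun i => hP2 i.1 i.2.1 i.2.2.1
  have hQx : ∀ i : I, i.1 ∉ Q i := fun i => hPx i.1 i.2.1 i.2.2.1
  let M : Subgroup G := N ⊓ ⨅ i : I, Q i
  have hMmem : ∀ n : G, n ∈ M ↔ n ∈ N ∧ ∀ i : I, n ∈ Q i := by
    intro n
    simp [M, Subgroup.mem_inf, Subgroup.mem_iInf]
  have hMn : M.Normal := by
    refine ⟨fun n hn g => ?_⟩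
    rw [hMmem] at hn ⊢
    exact ⟨Subgroup.Normal.conj_mem inferInstance n hn.1 g,
      fun i => Subgroup.Normal.conj_mem (hQn i) n (hn.2 i) g⟩
  have hMN : M ≤ N := inf_le_left
  let K : Subgroup (G ⧸ M) := N.map (QuotientGroup.mk' M)
  have hKn : K.Normal := Subgroup.Normal.map inferInstance _ (QuotientGroup.mk'_surjective M)
  let π : N →* K := ((QuotientGroup.mk' M).comp N.subtype).codRestrict K
    (fun n => ⟨n, n.2, rfl⟩)
  have hπ : Function.Surjective π := by
    rintro ⟨_, ⟨n, hn, rfl⟩⟩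
    exact ⟨⟨n, hn⟩, rfl⟩
  have hπker : ∀ n : N, π n = 1 ↔ ∀ i : I, (n : G) ∈ Q i := by
    intro n
    have h1 : π n = 1 ↔ QuotientGroup.mk' M (n : G) = 1 := by
      rw [Subtype.ext_iff]; rfl
    rw [h1, QuotientGroup.mk'_apply, QuotientGroup.eq_one_iff, hMmem]
    exact ⟨fun h => h.2, fun h => ⟨n.2, h⟩⟩
  have hKf : Finite K := by
    have h0 : Finite ((i : I) → N ⧸ (Q i).subgroupOf N) := inferInstance
    have h1 : ∀ k : K, ∃ n : N, π n = k := fun k => hπ k
    choose s hs using h1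
    refine Finite.of_injective (fun (k : K) (i : I) => ((s k : N) : N ⧸ (Q i).subgroupOf N)) ?_
    intro k l hkl
    have h2 : π ((s k)⁻¹ * s l) = 1 := by
      rw [hπker]
      intro i
      have h3 := congrFun hkl i
      have h4 := QuotientGroup.eq.1 h3
      exact Subgroup.mem_subgroupOf.1 h4
    rw [map_mul, map_inv, inv_mul_eq_one, hs, hs] at h2
    exact h2
  have hexp : ∀ i : I, ∃ e : ℕ, ∀ c : N ⧸ (Q i).subgroupOf N,
      c ∈ Subgroup.center (N ⧸ (Q i).subgroupOf N) → c ^ (2 ^ e) = 1 := by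
    intro i
    have hf := hQf i
    have : Finite (Subgroup.center (N ⧸ (Q i).subgroupOf N)) := inferInstance
    obtain ⟨e, he⟩ := IsPGroup.iff_card.1 (hQ2 i)
    refine ⟨e, fun c hc => ?_⟩
    have h1 : (⟨c, hc⟩ : Subgroup.center (N ⧸ (Q i).subgroupOf N)) ^
        (Nat.card (Subgroup.center (N ⧸ (Q i).subgroupOf N))) = 1 :=
      pow_card_eq_one'
    rw [he] at h1
    have h2 := congrArg Subtype.val h1
    simpa using h2
  choose e he using hexp
  let _ : Fintype I := Fintype.ofFinite I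
  have hK2 : IsPGroup 2 (Subgroup.center K) := by
    rintro ⟨k, hk⟩
    obtain ⟨n, rfl⟩ := hπ k
    refine ⟨∑ i, e i, ?_⟩
    apply Subtype.ext
    have h1 : π (n ^ (2 ^ (∑ i, e i))) = 1 := by
      rw [hπker]
      intro j
      have hc : ((n : N) : N ⧸ (Q j).subgroupOf N) ∈
          Subgroup.center (N ⧸ (Q j).subgroupOf N) := by
        rw [Subgroup.mem_center_iff]
        intro g
        obtain ⟨m, rfl⟩ := QuotientGroup.mk'_surjective ((Q j).subgroupOf N) g
        have h2 : π m * π n = π n * π m := Subgroup.mem_center_iff.1 hk (π m)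
        have h3 : π ((n * m)⁻¹ * (m * n)) = 1 := by
          rw [map_mul, map_inv, map_mul, map_mul, h2]; group
        have h4 := (hπker _).1 h3 j
        rw [QuotientGroup.mk'_apply, ← QuotientGroup.mk_mul, ← QuotientGroup.mk_mul]
        symm
        rw [QuotientGroup.eq]
        exact Subgroup.mem_subgroupOf.2 h4
      have h5 := he j _ hc
      have h6 : e j ≤ ∑ i, e i := Finset.single_le_sum (f := e) (fun i _ => Nat.zero_le _)
        (Finset.mem_univ j)
      obtain ⟨r, hr⟩ := Nat.exists_eq_add_of_le h6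
      have h7 : ((n ^ (2 ^ (∑ i, e i)) : N) : N ⧸ (Q j).subgroupOf N) = 1 := by
        rw [QuotientGroup.mk_pow, hr, pow_add, pow_mul, h5, one_pow]
      rw [QuotientGroup.eq_one_iff] at h7
      exact Subgroup.mem_subgroupOf.1 h7
    rw [map_pow] at h1
    simpa using h1
  have hSK : IsSofic ((G ⧸ M) ⧸ K) :=
    isSofic_of_injective (QuotientGroup.quotientQuotientEquivQuotient M N hMN).toMonoidHom
      (QuotientGroup.quotientQuotientEquivQuotient M N hMN).injective hS
  refine ⟨G ⧸ M, inferInstance, QuotientGroup.mk' M, finite_ext hQ (G ⧸ M) K hK2 hSK, ?_⟩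
  intro g hg hg1 h
  rw [QuotientGroup.mk'_apply, QuotientGroup.eq_one_iff, hMmem] at h
  exact hQx ⟨g, h.1, hg1, hg⟩ (h.2 _)

end Pool.Agent.Helper70.Sofic
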