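import Mathlib
import Pool.Agent.Helper70.Sofic.Inv

set_option autoImplicit false

namespace Pool.Agent.Helper70.Sofic

theorem isSofic_of_fg {G : Type} [Group G] (h : ∀ H : Subgroup G, H.FG → IsSofic H) :
    IsSofic G := by
  classical
  intro F ε hε
  let H : Subgroup G := Subgroup.closure (F : Set G)
  have hH : H.FG := ⟨F, rfl⟩
  have hFH : ∀ g ∈ F, g ∈ H := fun g hg => Subgroup.subset_closure hg
  have hF' := h H hH (F.attach.image (fun g => (⟨g.1, hFH g.1 g.2⟩ : H))) ε hε
  obtain ⟨n, φ, h1, h2⟩ := hF'
  have hmem : ∀ g (hg : g ∈ F), (⟨g, hFH g hg⟩ : H) ∈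
      F.attach.image (fun g => (⟨g.1, hFH g.1 g.2⟩ : H)) := by
    intro g hg
    exact Finset.mem_image.2 ⟨⟨g, hg⟩, Finset.mem_attach _ _, rfl⟩
  refine ⟨n, fun g => if hg : g ∈ H then φ ⟨g, hg⟩ else 1, ?_, ?_⟩
  · intro g hg k hk
    have h3 := h1 _ (hmem g hg) _ (hmem k hk)
    have h4 : g * k ∈ H := H.mul_mem (hFH g hg) (hFH k hk)
    simp only [dif_pos h4, dif_pos (hFH g hg), dif_pos (hFH k hk)]
    exact h3
  · intro g hg hg1
    have h3 := h2 _ (hmem g hg) (by
      intro h4
      exact hg1 (congrArg Subtype.val h4))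
    simp only [dif_pos (hFH g hg)]
    exact h3

/-- Q1 for finitely generated groups in which every finite index subgroup contains `N`. -/
def TwoExtDeligne : Prop :=
  ∀ (G : Type) [Group G] [Group.FG G] (N : Subgroup G) [N.Normal], Nat.card N = 2 →
    (∀ H : Subgroup G, H.FiniteIndex → N ≤ H) → IsSofic (G ⧸ N) → IsSofic G

theorem twoExt_of_deligne (h : TwoExtDeligne) : TwoExt := by
  intro G _ N _ hN hS
  apply isSofic_of_fg
  intro H hH
  have hHfg : Group.FG H := (Group.fg_iff_subgroup_fg H).2 hH
  let N0 : Subgroup H := N.subgroupOf H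
  let f : H →* G ⧸ N := (QuotientGroup.mk' N).comp H.subtype
  have hfker : ∀ x : H, f x = 1 ↔ (x : G) ∈ N := by
    intro x
    simp only [f, MonoidHom.comp_apply, QuotientGroup.mk'_apply, QuotientGroup.eq_one_iff]
    rfl
  -- N has exactly two elements
  obtain ⟨z, hz1, hzN⟩ : ∃ z : G, z ≠ 1 ∧ ∀ x ∈ N, x = 1 ∨ x = z := by
    have hfin : Finite N := Nat.finite_of_card_ne_zero (by omega)
    obtain ⟨x, y, hxy, huniv⟩ := Nat.card_eq_two_iff.1 hN
    rcases eq_or_ne x 1 with hx | hx
    · subst hx
      refine ⟨(y : G), fun h1 => hxy (Subtype.ext h1.symm), fun w hw => ?_⟩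
      have h2 : (⟨w, hw⟩ : N) ∈ ({1, y} : Set N) := by rw [huniv]; trivial
      rcases h2 with h2 | h2
      · left; exact congrArg Subtype.val h2
      · right; exact congrArg Subtype.val h2
    · have hy : y = 1 := by
        have h2 : (1 : N) ∈ ({x, y} : Set N) := by rw [huniv]; trivial
        rcases h2 with h2 | h2
        · exact absurd h2.symm hx
        · exact h2.symm
      subst hy
      refine ⟨(x : G), fun h1 => hx (Subtype.ext h1), fun w hw => ?_⟩
      have h2 : (⟨w, hw⟩ : N) ∈ ({x, 1} : Set N) := by rw [huniv]; trivial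
      rcases h2 with h2 | h2
      · right; exact congrArg Subtype.val h2
      · left; exact congrArg Subtype.val h2
  -- a subgroup of H not containing N is sofic
  have key : ∀ L : Subgroup H, ¬ (N0 ≤ L) ∨ ¬ (N ≤ H) → IsSofic L := by
    intro L hL
    refine isSofic_of_injective (f.comp L.subtype) ?_ hS
    rw [injective_iff_map_eq_one]
    intro x hx
    have hxN : ((x : H) : G) ∈ N := (hfker x).1 hx
    by_contra hx1
    have hxz : ((x : H) : G) = z := by
      rcases hzN _ hxN with h3 | h3
      · exfalso; apply hx1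
        apply Subtype.ext; apply Subtype.ext; exact h3
      · exact h3
    rcases hL with hL | hL
    · apply hL
      intro w hw
      rcases hzN (w : G) hw with h3 | h3
      · have : w = 1 := Subtype.ext h3
        rw [this]; exact L.one_mem
      · have : w = (x : H) := Subtype.ext (h3.trans hxz.symm)
        rw [this]; exact x.2
    · apply hL
      intro w hw
      rcases hzN w hw with h3 | h3
      · rw [h3]; exact H.one_mem
      · rw [h3, ← hxz]; exact (x : H).2
  by_cases hNH : N ≤ H
  · by_cases hall : ∀ L : Subgroup H, L.FiniteIndex → N0 ≤ L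
    · have hN0 : Nat.card N0 = 2 := by
        rw [← hN]
        exact Nat.card_congr (Subgroup.subgroupOfEquivOfLe hNH).toEquiv
      refine h H N0 hN0 hall ?_
      refine isSofic_of_injective (QuotientGroup.map N0 N H.subtype (by
        intro a ha; exact ha)) ?_ hS
      rw [injective_iff_map_eq_one]
      intro a ha
      obtain ⟨a, rfl⟩ := QuotientGroup.mk'_surjective N0 a
      rw [QuotientGroup.mk'_apply, QuotientGroup.map_mk, QuotientGroup.eq_one_iff] at ha
      rw [QuotientGroup.mk'_apply, QuotientGroup.eq_one_iff]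
      exact ha
    · push Not at hall
      obtain ⟨L, hLf, hL⟩ := hall
      exact isSofic_of_finiteIndex L (key L (Or.inl hL))
  · have h4 := key ⊤ (Or.inr hNH)
    exact isSofic_of_finiteIndex ⊤ h4

end Pool.Agent.Helper70.Sofic
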