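import Mathlib
import Pool.Agent.Helper70.Sofic.Final

set_option autoImplicit false

/-!
# How far the question for kernels of order two reaches

Q1 of the problem asks whether a group `G` with a normal subgroup `N` of order two and sofic
quotient `G / N` is sofic.  We show that this is equivalent to

* the same for finitely generated `G` such that `N` lies in every subgroup of finite index;
* the same for all finite kernels whose centre is a 2-group;
* the same for all finitely generated kernels that are residually (finite with centre a 2-group),
  for example finitely generated free groups, free abelian groups, surface groups;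
* the same for all kernels that are separated by subgroups `M` normal in `G` with `N / M` finite
  with centre a 2-group.
-/

namespace Pool.Agent.Helper70.Sofic.TF

open Pool.Agent.Helper70.Sofic

/-- Extensions with a finite kernel whose centre is a 2-group. -/
def FiniteExt : Prop :=
  ∀ (G : Type) [Group G] (K : Subgroup G) [K.Normal] [Finite K],
    IsPGroup 2 (Subgroup.center K) → IsSofic (G ⧸ K) → IsSofic G

/-- Extensions with a finitely generated kernel that is residually (finite with centre a
2-group). -/
def FgExt : Prop :=
  ∀ (G : Type) [Group G] (N : Subgroup G) [N.Normal] [Group.FG N],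
    ResTwoCentre N → IsSofic (G ⧸ N) → IsSofic G

/-- Extensions with a kernel that is residually (finite with centre a 2-group) through subgroups
that are normal in the whole group. -/
def InvExt : Prop :=
  ∀ (G : Type) [Group G] (N : Subgroup G) [N.Normal],
    InvRes N → IsSofic (G ⧸ N) → IsSofic G

theorem main : List.TFAE [TwoExt, TwoExtDeligne, FiniteExt, FgExt, InvExt] := by
  have hp2 : ∀ (G : Type) [Group G] (N : Subgroup G), Nat.card N = 2 → IsPGroup 2 N := by
    intro G _ N hN
    exact IsPGroup.of_card (n := 1) (by rw [hN, pow_one])
  have hfin : ∀ (G : Type) [Group G] (N : Subgroup G), Nat.card N = 2 → Finite N := by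
    intro G _ N hN
    exact Nat.finite_of_card_ne_zero (by omega)
  tfae_have 1 → 2 := fun h G _ _ N _ hN _ hS => h G N hN hS
  tfae_have 2 → 1 := twoExt_of_deligne
  tfae_have 1 → 3 := fun h G _ K _ _ hK hS => finite_ext h G K hK hS
  tfae_have 3 → 1 := by
    intro h G _ N _ hN hS
    have h1 := hfin G N hN
    exact h G N ((hp2 G N hN).to_subgroup _) hS
  tfae_have 1 → 4 := fun h G _ N _ _ hN hS => main_ext h G N hN hS
  tfae_have 4 → 1 := by
    intro h G _ N _ hN hS
    have h1 := hfin G N hN
    have h2 : Group.FG N := inferInstance
    refine h G N ?_ hS
    intro x hx
    exact ⟨N, inferInstance, h1, MonoidHom.id N, Function.surjective_id,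
      (hp2 G N hN).to_subgroup _, hx⟩
  tfae_have 1 → 5 := fun h G _ N _ hN hS => inv_ext h G N hN hS
  tfae_have 5 → 1 := by
    intro h G _ N _ hN hS
    have h1 := hfin G N hN
    refine h G N ?_ hS
    intro x hx hx1
    refine ⟨⊥, inferInstance, bot_le, ?_, inferInstance, ?_⟩
    · rwa [Subgroup.mem_bot]
    · exact ((hp2 G N hN).to_quotient _).to_subgroup _
  tfae_finish

end Pool.Agent.Helper70.Sofic.TF
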